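import Mathlib
import Pool.Agent.Y80.PS.Zel

set_option autoImplicit false

/-!
# MP_6bba90_al: profinite groups which are locally finite modulo a term of the upper central series

Schur and Baer type theorems for profinite groups, relative to a closed normal subgroup `N`:
if `N / (N ∩ Z_n(G))` is locally finite then the closed subgroup `[N, G, ..., G]` (`n` times `G`)
is locally finite. For `N = G` and `n = 1` this is the question, periodic profinite groups being
locally finite by Zelmanov's theorem; the last part of the theorem carries this out, with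
Zelmanov's theorem as a hypothesis.
-/

namespace Pool.Agent.Results.MP_6bba90_al.UpperCentralQuotient

open Pool.Agent.Y80.PS

universe u

lemma iter_eq {G : Type u} [Group G] (N : Subgroup G) (n : ℕ) :
    iter N n = (fun H : Subgroup G => ⁅H, (⊤ : Subgroup G)⁆)^[n] N := by
  induction n with
  | zero => rfl
  | succ n ih =>
    rw [Function.iterate_succ_apply', ← ih]; rfl

lemma lcs_eq {G : Type u} [Group G] (n : ℕ) :
    iter (⊤ : Subgroup G) n = (⊤ : Subgroup G).lowerCentralSeries n := by
  induction n with
  | zero => rfl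
  | succ n ih =>
    rw [Subgroup.lowerCentralSeries_succ, ← ih]; rfl

lemma general {G : Type u} [Group G] [TopologicalSpace G] [IsTopologicalGroup G]
    [CompactSpace G] [T2Space G] [TotallyDisconnectedSpace G]
    (N : Subgroup G) [N.Normal] (hN : IsClosed (N : Set G)) (n : ℕ)
    (hlf : LFin N (QuotientGroup.mk' (Subgroup.upperCentralSeries G n))) :
    (∀ S : Finset G, (S : Set G) ⊆ (iter N n).topologicalClosure →
      (Subgroup.closure (S : Set G) : Set G).Finite) ∧
    (∀ g ∈ (iter N n).topologicalClosure, IsOfFinOrder g) ∧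
    (∃ e : ℕ, 0 < e ∧ ∀ z ∈ (iter N n).topologicalClosure,
      z ∈ Subgroup.upperCentralSeries G n → z ^ e = 1) ∧
    ∀ p : ℕ, p.Prime →
      (∀ g ∈ N, ∃ m : ℕ, ¬ p ∣ m ∧ g ^ m ∈ Subgroup.upperCentralSeries G n) →
      ∀ g ∈ (iter N n).topologicalClosure, ¬ p ∣ orderOf g := by
  obtain ⟨h1, h2, h3⟩ := main n N hN hlf
  refine ⟨fun S hS => by simpa using h1 S hS, fun g hg => h1.isOfFinOrder hg, h2, ?_⟩
  intro p hp h g hg hdvd
  obtain ⟨m, hm, hgm⟩ := h3 p hp h g hg
  exact hm (hdvd.trans (orderOf_dvd_of_pow_eq_one hgm))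

/-- `G` is a profinite group, `N` a closed normal subgroup, `Z_n = Subgroup.upperCentralSeries G n`
and `[N, _n G] = (fun H => ⁅H, ⊤⁆)^[n] N`.

(1) Let `N / (N ∩ Z_n)` be locally finite. Then the closure `C` of `[N, _n G]` is locally finite,
every element of `C` has finite order, the elements of `C ∩ Z_n` have bounded order, and no prime
`p` divides the order of an element of `C` unless `N / (N ∩ Z_n)` has elements of order `p`.

(2) In particular, if `G / Z_n(G)` is locally finite then every element of the closure of the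
`(n + 1)`-st term of the lower central series of `G` (`Subgroup.lowerCentralSeries ⊤ n`) has finite
order.

(3) If all periodic profinite groups are locally finite (Zelmanov's theorem), then it is enough in
(1) that `N / (N ∩ Z_n)` is periodic; in particular, if `G / Z(G)` is periodic then the closed
commutator subgroup of `G` is periodic. -/
theorem result :
    (∀ (G : Type u) [Group G] [TopologicalSpace G] [IsTopologicalGroup G] [CompactSpace G]
      [T2Space G] [TotallyDisconnectedSpace G] (N : Subgroup G) [N.Normal],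
      IsClosed (N : Set G) → ∀ n : ℕ,
      (∀ S : Finset G, (S : Set G) ⊆ N →
        (QuotientGroup.mk' (Subgroup.upperCentralSeries G n) ''
          (Subgroup.closure (S : Set G) : Set G)).Finite) →
      ∀ C : Subgroup G,
      C = ((fun H : Subgroup G => ⁅H, (⊤ : Subgroup G)⁆)^[n] N).topologicalClosure →
      (∀ S : Finset G, (S : Set G) ⊆ C → (Subgroup.closure (S : Set G) : Set G).Finite) ∧
      (∀ g ∈ C, IsOfFinOrder g) ∧
      (∃ e : ℕ, 0 < e ∧ ∀ z ∈ C, z ∈ Subgroup.upperCentralSeries G n → z ^ e = 1) ∧
      ∀ p : ℕ, p.Prime →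
        (∀ g ∈ N, ∃ m : ℕ, ¬ p ∣ m ∧ g ^ m ∈ Subgroup.upperCentralSeries G n) →
        ∀ g ∈ C, ¬ p ∣ orderOf g) ∧
    (∀ (G : Type u) [Group G] [TopologicalSpace G] [IsTopologicalGroup G] [CompactSpace G]
      [T2Space G] [TotallyDisconnectedSpace G] (n : ℕ),
      (∀ S : Finset (G ⧸ Subgroup.upperCentralSeries G n),
        (Subgroup.closure (S : Set (G ⧸ Subgroup.upperCentralSeries G n)) :
          Set (G ⧸ Subgroup.upperCentralSeries G n)).Finite) →
      ∀ g ∈ ((⊤ : Subgroup G).lowerCentralSeries n).topologicalClosure, IsOfFinOrder g) ∧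
    ((∀ (H : Type u) [Group H] [TopologicalSpace H] [IsTopologicalGroup H] [CompactSpace H]
        [T2Space H] [TotallyDisconnectedSpace H], (∀ h : H, IsOfFinOrder h) →
        ∀ S : Finset H, (Subgroup.closure (S : Set H) : Set H).Finite) →
      (∀ (G : Type u) [Group G] [TopologicalSpace G] [IsTopologicalGroup G] [CompactSpace G]
        [T2Space G] [TotallyDisconnectedSpace G] (N : Subgroup G) [N.Normal],
        IsClosed (N : Set G) → ∀ n : ℕ,
        (∀ g ∈ N, ∃ m : ℕ, 0 < m ∧ g ^ m ∈ Subgroup.upperCentralSeries G n) →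
        ∀ g ∈ ((fun H : Subgroup G => ⁅H, (⊤ : Subgroup G)⁆)^[n] N).topologicalClosure,
          IsOfFinOrder g) ∧
      (∀ (G : Type u) [Group G] [TopologicalSpace G] [IsTopologicalGroup G] [CompactSpace G]
        [T2Space G] [TotallyDisconnectedSpace G],
        (∀ x : G ⧸ Subgroup.center G, IsOfFinOrder x) →
        ∀ g ∈ (commutator G).topologicalClosure, IsOfFinOrder g)) := by
  classical
  refine ⟨?_, ?_, ?_⟩
  · intro G _ _ _ _ _ _ N _ hN n hlf C hC
    rw [← iter_eq] at hC
    subst hC
    exact general N hN n hlf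
  · intro G _ _ _ _ _ _ n hlf g hg
    have h1 : LFin (⊤ : Subgroup G) (QuotientGroup.mk' (Subgroup.upperCentralSeries G n)) := by
      have h2 : LFin (⊤ : Subgroup (G ⧸ Subgroup.upperCentralSeries G n)) (MonoidHom.id _) := by
        intro S _
        simpa using hlf S
      have := LFin.comap (QuotientGroup.mk' (Subgroup.upperCentralSeries G n)) (MonoidHom.id _) h2
      exact this
    rw [← lcs_eq] at hg
    exact (general (⊤ : Subgroup G) isClosed_univ n h1).2.1 g hg
  · intro hz
    have key : ∀ (G : Type u) [Group G] [TopologicalSpace G] [IsTopologicalGroup G] [CompactSpace G]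
        [T2Space G] [TotallyDisconnectedSpace G] (N : Subgroup G) [N.Normal],
        IsClosed (N : Set G) → ∀ n : ℕ,
        (∀ g ∈ N, ∃ m : ℕ, 0 < m ∧ g ^ m ∈ Subgroup.upperCentralSeries G n) →
        ∀ g ∈ ((fun H : Subgroup G => ⁅H, (⊤ : Subgroup G)⁆)^[n] N).topologicalClosure,
          IsOfFinOrder g := by
      intro G _ _ _ _ _ _ N _ hN n hp g hg
      rw [← iter_eq] at hg
      exact (general N hN n (lfin_of_zel hz N hN n hp)).2.1 g hg
    refine ⟨key, ?_⟩
    intro G _ _ _ _ _ _ hp g hg
    refine key G ⊤ isClosed_univ 1 ?_ g hg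
    intro x _
    obtain ⟨m, hm, h⟩ := isOfFinOrder_iff_pow_eq_one.1 (hp (x : G ⧸ Subgroup.center G))
    refine ⟨m, hm, ?_⟩
    rw [Subgroup.upperCentralSeries_one]
    exact (QuotientGroup.eq_one_iff _).1 h

end Pool.Agent.Results.MP_6bba90_al.UpperCentralQuotient
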